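import Mathlib
import Pool.Agent.N178.HW.Defs

/-!
# Transitivity of the group generated by the matrices `1 + N` on hyperbolic pairs
-/

set_option linter.unusedSectionVars false

namespace Pool.Agent.N429.HX

open Finset Matrix Pool.Agent.V1168.GH
open Pool.Agent.N178.HW

noncomputable section

/-- The symplectic form. -/
def sg {R : Type} [Fintype R] (inv : R → R) (jj : R → ℂ) (v w : R → ℂ) : ℂ :=
  ∑ x, jj x * v x * w (inv x)

section

variable {R P : Type} [Fintype R] [DecidableEq R] [DecidableEq P] {cls : R → P}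
  {b : P → P} {inv : R → R} {jj : R → ℂ} {X : R → Prop}

theorem sg_add_left (v v' w : R → ℂ) : sg inv jj (v + v') w = sg inv jj v w + sg inv jj v' w := by
  simp only [sg, Pi.add_apply, ← sum_add_distrib]
  exact sum_congr rfl fun x _ => by ring

theorem sg_add_right (v w w' : R → ℂ) : sg inv jj v (w + w') = sg inv jj v w + sg inv jj v w' := by
  simp only [sg, Pi.add_apply, ← sum_add_distrib]
  exact sum_congr rfl fun x _ => by ring

theorem sg_smul_left (c : ℂ) (v w : R → ℂ) : sg inv jj (c • v) w = c * sg inv jj v w := by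
  simp only [sg, Pi.smul_apply, smul_eq_mul, mul_sum]
  exact sum_congr rfl fun x _ => by ring

theorem sg_smul_right (c : ℂ) (v w : R → ℂ) : sg inv jj v (c • w) = c * sg inv jj v w := by
  simp only [sg, Pi.smul_apply, smul_eq_mul, mul_sum]
  exact sum_congr rfl fun x _ => by ring

theorem sg_sub_left (v v' w : R → ℂ) : sg inv jj (v - v') w = sg inv jj v w - sg inv jj v' w := by
  simp only [sg, Pi.sub_apply, ← sum_sub_distrib]
  exact sum_congr rfl fun x _ => by ring

theorem sg_sub_right (v w w' : R → ℂ) : sg inv jj v (w - w') = sg inv jj v w - sg inv jj v w' := by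
  simp only [sg, Pi.sub_apply, ← sum_sub_distrib]
  exact sum_congr rfl fun x _ => by ring

theorem sum_inv (hF : Fr cls b inv jj X) (f : R → ℂ) : ∑ x, f (inv x) = ∑ x, f x :=
  Fintype.sum_equiv (⟨inv, inv, hF.ii, hF.ii⟩ : R ≃ R) _ _ fun _ => rfl

theorem sg_anti (hF : Fr cls b inv jj X) (v w : R → ℂ) : sg inv jj v w = -sg inv jj w v := by
  rw [sg, sg, ← sum_inv hF, ← sum_neg_distrib]
  refine sum_congr rfl fun x _ => ?_
  rw [hF.jn, hF.ii]
  ring

theorem sg_self (hF : Fr cls b inv jj X) (v : R → ℂ) : sg inv jj v v = 0 := by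
  have h := sg_anti hF v v
  have h2 : (2 : ℂ) * sg inv jj v v = 0 := by linear_combination h
  rcases mul_eq_zero.1 h2 with h3 | h3
  · norm_num at h3
  · exact h3

/-- The other expression of the form. -/
theorem sg_eq (hF : Fr cls b inv jj X) (v w : R → ℂ) :
    sg inv jj v w = ∑ y, -(jj y * v (inv y)) * w y := by
  rw [sg, ← sum_inv hF]
  refine sum_congr rfl fun x _ => ?_
  rw [hF.jn, hF.ii]
  ring

/-- The matrix of `z ↦ ⟨u', z⟩ u + ⟨u, z⟩ u'`. -/
def NN (inv : R → R) (jj : R → ℂ) (u u' : R → ℂ) : Matrix R R ℂ :=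
  fun x y => -(jj y * (u' (inv y) * u x + u (inv y) * u' x))

theorem NN_mulVec (hF : Fr cls b inv jj X) (u u' z : R → ℂ) :
    NN inv jj u u' *ᵥ z = sg inv jj u' z • u + sg inv jj u z • u' := by
  funext x
  rw [Pi.add_apply, Pi.smul_apply, Pi.smul_apply, smul_eq_mul, smul_eq_mul, sg_eq hF, sg_eq hF,
    sum_mul, sum_mul, ← sum_add_distrib]
  show ∑ y, NN inv jj u u' x y * z y = _
  refine sum_congr rfl fun y _ => ?_
  rw [NN]
  ring

/-- The vectors supported in the class `p`, outside of `A`. -/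
def VV (cls : R → P) (A : R → Prop) (p : P) (v : R → ℂ) : Prop :=
  ∀ x, v x ≠ 0 → cls x = p ∧ ¬ A x

/-- Perpendicularity of classes. -/
theorem sg_ne (hF : Fr cls b inv jj X) {A : R → Prop} {p q : P} {v w : R → ℂ} (hv : VV cls A p v)
    (hw : VV cls A q w) (h : sg inv jj v w ≠ 0) : q = b p := by
  by_contra hq
  apply h
  refine sum_eq_zero fun x _ => ?_
  by_cases h1 : v x = 0
  · rw [h1]; ring
  · by_cases h2 : w (inv x) = 0
    · rw [h2]; ring
    · exfalso
      apply hq
      rw [← (hw _ h2).1, hF.ci, (hv _ h1).1]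

theorem VV.add {A : R → Prop} {p : P} {v w : R → ℂ} (hv : VV cls A p v) (hw : VV cls A p w) :
    VV cls A p (v + w) := by
  intro x hx
  by_cases h1 : v x = 0
  · refine hw x ?_
    intro h2
    exact hx (by rw [Pi.add_apply, h1, h2, add_zero])
  · exact hv x h1

theorem VV.smul {A : R → Prop} {p : P} {v : R → ℂ} (c : ℂ) (hv : VV cls A p v) :
    VV cls A p (c • v) := by
  intro x hx
  refine hv x ?_
  intro h2
  exact hx (by rw [Pi.smul_apply, h2, smul_zero])

theorem VV.sub {A : R → Prop} {p : P} {v w : R → ℂ} (hv : VV cls A p v) (hw : VV cls A p w) :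
    VV cls A p (v - w) := by
  have h := hv.add (hw.smul (-1))
  have h2 : v + (-1 : ℂ) • w = v - w := by
    rw [neg_one_smul, sub_eq_add_neg]
  rwa [h2] at h

/-- The conditions on the matrices. -/
def Ok (cls : R → P) (inv : R → R) (jj : R → ℂ) (T : Submodule ℂ (P → ℂ)) (A : R → Prop)
    (N : Matrix R R ℂ) : Prop :=
  N ∈ GR cls inv jj T ∧ N * N = 0 ∧ ∀ x, A x → N *ᵥ Pi.single x 1 = 0

theorem ok_NN (hF : Fr cls b inv jj X) (hb : ∀ p, b (b p) = p) (T : Submodule ℂ (P → ℂ))
    {A : R → Prop} (hA : ∀ x, A x → A (inv x)) {p : P} {u u' : R → ℂ} (hu : VV cls A p u)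
    (hu' : VV cls A (b p) u') (h0 : sg inv jj u u' = 0) : Ok cls inv jj T A (NN inv jj u u') := by
  have h0' : sg inv jj u' u = 0 := by rw [sg_anti hF, h0, neg_zero]
  refine ⟨⟨?_, ?_, ?_⟩, ?_, ?_⟩
  · intro x y hxy
    have h1 : u' (inv y) * u x = 0 := by
      by_contra hne
      have h2 := left_ne_zero_of_mul hne
      have h3 := right_ne_zero_of_mul hne
      apply hxy
      rw [(hu x h3).1]
      have h4 := (hu' _ h2).1
      rw [hF.ci] at h4
      rw [← hb p, ← h4, hb]
    have h2 : u (inv y) * u' x = 0 := by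
      by_contra hne
      have h2 := left_ne_zero_of_mul hne
      have h3 := right_ne_zero_of_mul hne
      apply hxy
      rw [(hu' x h3).1]
      have h4 := (hu _ h2).1
      rw [hF.ci] at h4
      rw [← h4, hb]
    show -(jj y * (u' (inv y) * u x + u (inv y) * u' x)) = 0
    rw [h1, h2]
    ring
  · intro x y
    show -(jj (inv x) * (u' (inv (inv x)) * u (inv y) + u (inv (inv x)) * u' (inv y))) =
      -(jj x * jj y * -(jj y * (u' (inv y) * u x + u (inv y) * u' x)))
    have hj : jj y * jj y = 1 := by rcases hF.j1 y with h | h <;> rw [h] <;> ring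
    rw [hF.ii, hF.jn]
    linear_combination (-(jj x * (u' (inv y) * u x + u (inv y) * u' x))) * hj
  · have h : (fun q => ∑ x ∈ univ.filter (fun x => cls x = q), NN inv jj u u' x x) = 0 := by
      funext q
      have h1 : ∑ x ∈ univ.filter (fun x => cls x = q), jj x * u x * u' (inv x) = 0 := by
        by_cases hq : q = p
        · rw [← h0, sg]
          refine sum_subset (filter_subset _ _) fun x _ hx => ?_
          have hx' : cls x ≠ q := fun h => hx (mem_filter.2 ⟨mem_univ x, h⟩)
          by_cases h3 : u x = 0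
          · rw [h3]; ring
          · exact absurd ((hu x h3).1.trans hq.symm) hx'
        · refine sum_eq_zero fun x hx => ?_
          have hx' : cls x = q := (mem_filter.1 hx).2
          by_cases h3 : u x = 0
          · rw [h3]; ring
          · exact absurd (hx'.symm.trans (hu x h3).1) hq
      have h2 : ∑ x ∈ univ.filter (fun x => cls x = q), jj x * u' x * u (inv x) = 0 := by
        by_cases hq : q = b p
        · rw [← h0', sg]
          refine sum_subset (filter_subset _ _) fun x _ hx => ?_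
          have hx' : cls x ≠ q := fun h => hx (mem_filter.2 ⟨mem_univ x, h⟩)
          by_cases h3 : u' x = 0
          · rw [h3]; ring
          · exact absurd ((hu' x h3).1.trans hq.symm) hx'
        · refine sum_eq_zero fun x hx => ?_
          have hx' : cls x = q := (mem_filter.1 hx).2
          by_cases h3 : u' x = 0
          · rw [h3]; ring
          · exact absurd (hx'.symm.trans (hu' x h3).1) hq
      have h3 : ∑ x ∈ univ.filter (fun x => cls x = q), NN inv jj u u' x x =
          -(∑ x ∈ univ.filter (fun x => cls x = q), jj x * u x * u' (inv x) +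
            ∑ x ∈ univ.filter (fun x => cls x = q), jj x * u' x * u (inv x)) := by
        rw [← sum_add_distrib, ← sum_neg_distrib]
        refine sum_congr rfl fun x _ => ?_
        rw [NN]
        ring
      rw [h3, h1, h2]
      simp
    rw [h]
    exact T.zero_mem
  · apply Matrix.ext_of_mulVec_single
    intro x
    rw [← Matrix.mulVec_mulVec, NN_mulVec hF, NN_mulVec hF, sg_add_right, sg_add_right,
      sg_smul_right, sg_smul_right, sg_smul_right, sg_smul_right, h0, h0', sg_self hF, sg_self hF,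
      Matrix.zero_mulVec]
    simp
  · intro x hx
    have hz : ∀ (y : R → ℂ) {q : P}, VV cls A q y → sg inv jj y (Pi.single x 1) = 0 := by
      intro y q hy
      rw [sg_eq hF]
      refine sum_eq_zero fun z _ => ?_
      by_cases h1 : z = x
      · have h2 : y (inv z) = 0 := by
          by_contra hne
          exact (hy _ hne).2 (h1 ▸ hA x hx)
        rw [h2]; ring
      · rw [Pi.single_eq_of_ne h1]; ring
    rw [NN_mulVec hF, hz u' hu', hz u hu]
    simp

theorem mulVec_one_add (N : Matrix R R ℂ) (z : R → ℂ) : (1 + N) *ᵥ z = z + N *ᵥ z := by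
  rw [Matrix.add_mulVec, Matrix.one_mulVec]

/-- The elements `1 + N` preserve the form. -/
theorem sg_pres (hF : Fr cls b inv jj X) {u u' : R → ℂ} (h0 : sg inv jj u u' = 0) (z w : R → ℂ) :
    sg inv jj ((1 + NN inv jj u u') *ᵥ z) ((1 + NN inv jj u u') *ᵥ w) = sg inv jj z w := by
  have h0' : sg inv jj u' u = 0 := by rw [sg_anti hF, h0, neg_zero]
  rw [mulVec_one_add, mulVec_one_add, NN_mulVec hF, NN_mulVec hF]
  simp only [sg_add_left, sg_add_right, sg_smul_left, sg_smul_right, h0, h0', sg_self hF]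
  rw [sg_anti hF z u, sg_anti hF z u']
  ring

/-- Supports are preserved. -/
theorem VV_pres (hF : Fr cls b inv jj X) (hb : ∀ p, b (b p) = p) {A : R → Prop} {p q : P}
    {u u' : R → ℂ} (hu : VV cls A p u) (hu' : VV cls A (b p) u') {z : R → ℂ} (hz : VV cls A q z) :
    VV cls A q ((1 + NN inv jj u u') *ᵥ z) := by
  rw [mulVec_one_add, NN_mulVec hF]
  refine hz.add (VV.add ?_ ?_)
  · by_cases h : sg inv jj u' z = 0
    · rw [h, zero_smul]
      intro x hx
      exact absurd rfl hx
    · have h1 := sg_ne hF hu' hz h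
      rw [hb] at h1
      rw [h1]
      exact hu.smul _
  · by_cases h : sg inv jj u z = 0
    · rw [h, zero_smul]
      intro x hx
      exact absurd rfl hx
    · rw [sg_ne hF hu hz h]
      exact hu'.smul _

/-- The group elements. -/
structure Grp (cls : R → P) (inv : R → R) (jj : R → ℂ) (T : Submodule ℂ (P → ℂ)) (A : R → Prop)
    (l : List (Matrix R R ℂ)) : Prop where
  ok : ∀ N ∈ l, Ok cls inv jj T A N
  form : ∀ z w, sg inv jj ((l.map fun N => 1 + N).prod *ᵥ z) ((l.map fun N => 1 + N).prod *ᵥ w) =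
    sg inv jj z w
  sup : ∀ q z, VV cls A q z → VV cls A q ((l.map fun N => 1 + N).prod *ᵥ z)

theorem grp_nil (T : Submodule ℂ (P → ℂ)) (A : R → Prop) : Grp cls inv jj T A [] := by
  refine ⟨?_, ?_, ?_⟩
  · intro N hN
    simp at hN
  · intro z w
    simp
  · intro q z hz
    simpa using hz

theorem grp_cons (hF : Fr cls b inv jj X) (hb : ∀ p, b (b p) = p) (T : Submodule ℂ (P → ℂ))
    {A : R → Prop} (hA : ∀ x, A x → A (inv x)) {p : P} {u u' : R → ℂ} (hu : VV cls A p u)
    (hu' : VV cls A (b p) u') (h0 : sg inv jj u u' = 0) {l : List (Matrix R R ℂ)}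
    (hl : Grp cls inv jj T A l) : Grp cls inv jj T A (NN inv jj u u' :: l) := by
  refine ⟨?_, ?_, ?_⟩
  · intro N hN
    rcases List.mem_cons.1 hN with h | h
    · rw [h]
      exact ok_NN hF hb T hA hu hu' h0
    · exact hl.ok N h
  · intro z w
    rw [List.map_cons, List.prod_cons, ← Matrix.mulVec_mulVec, ← Matrix.mulVec_mulVec,
      sg_pres hF h0, hl.form]
  · intro q z hz
    rw [List.map_cons, List.prod_cons, ← Matrix.mulVec_mulVec]
    exact VV_pres hF hb hu hu' (hl.sup q z hz)

/-- A vector with given products. -/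
theorem exists_dual (hF : Fr cls b inv jj X) (hb : ∀ p, b (b p) = p) {A : R → Prop}
    (hA : ∀ x, A x → A (inv x)) {p : P} (φ : R → ℂ) (hφ : VV cls A p φ) :
    ∃ u', VV cls A (b p) u' ∧ ∀ z, sg inv jj u' z = ∑ y, φ y * z y := by
  refine ⟨fun x => jj x * φ (inv x), ?_, ?_⟩
  · intro x hx
    have h1 := hφ _ (right_ne_zero_of_mul hx)
    refine ⟨?_, ?_⟩
    · rw [← h1.1, hF.ci, hb]
    · intro h
      exact h1.2 (hA x h)
  · intro z
    rw [sg_eq hF]
    refine sum_congr rfl fun y _ => ?_
    have hj : jj y * jj y = 1 := by rcases hF.j1 y with h | h <;> rw [h] <;> ring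
    show -(jj y * (jj (inv y) * φ (inv (inv y)))) * z y = _
    rw [hF.ii, hF.jn]
    linear_combination (φ y * z y) * hj

theorem VV_single {A : R → Prop} {x : R} (hx : ¬ A x) : VV cls A (cls x) (Pi.single x 1) := by
  intro y hy
  by_cases h : y = x
  · rw [h]
    exact ⟨rfl, hx⟩
  · exact absurd (Pi.single_eq_of_ne h 1) hy

theorem sum_single (x : R) (z : R → ℂ) : ∑ y, (Pi.single x 1 : R → ℂ) y * z y = z x := by
  rw [sum_eq_single x]
  · rw [Pi.single_eq_same, one_mul]
  · intro y _ hy
    rw [Pi.single_eq_of_ne hy, zero_mul]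
  · intro h
    exact absurd (mem_univ x) h

/-- The case of a selfdual class: one vector is moved to another one. -/
theorem step_self (hF : Fr cls b inv jj X) (hb : ∀ p, b (b p) = p) (T : Submodule ℂ (P → ℂ))
    {A : R → Prop} (hA : ∀ x, A x → A (inv x)) {p : P} (hp : b p = p) {s t : R → ℂ}
    (hs : VV cls A p s) (ht : VV cls A p t) (hst : sg inv jj t s ≠ 0) {l : List (Matrix R R ℂ)}
    (hl : Grp cls inv jj T A l) :
    ∃ N, Grp cls inv jj T A (N :: l) ∧ (1 + N) *ᵥ s = t := by
  have h1 := ht.sub hs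
  refine ⟨NN inv jj ((1 / (2 * sg inv jj t s)) • (t - s)) (t - s), ?_, ?_⟩
  · refine grp_cons hF hb T hA (h1.smul _) (hp.symm ▸ h1) ?_ hl
    rw [sg_smul_left, sg_self hF, mul_zero]
  · rw [mulVec_one_add, NN_mulVec hF, sg_smul_left, sg_sub_left, sg_self hF, sub_zero]
    have h2 : sg inv jj t s • (1 / (2 * sg inv jj t s)) • (t - s) +
        (1 / (2 * sg inv jj t s) * sg inv jj t s) • (t - s) = t - s := by
      rw [smul_smul, ← add_smul]
      have h3 : sg inv jj t s * (1 / (2 * sg inv jj t s)) +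
          1 / (2 * sg inv jj t s) * sg inv jj t s = 1 := by
        field_simp
        norm_num
      rw [h3, one_smul]
    rw [h2]
    exact add_sub_cancel s t

/-- Step one. -/
theorem step_one (hF : Fr cls b inv jj X) (hb : ∀ p, b (b p) = p) (T : Submodule ℂ (P → ℂ))
    {A : R → Prop} (hA : ∀ x, A x → A (inv x)) {x₀ : R} (hx₀ : ¬ A x₀) {v : R → ℂ}
    (hv : VV cls A (cls x₀) v) (hv0 : v ≠ 0) :
    ∃ (c : ℂ) (l : List (Matrix R R ℂ)), c ≠ 0 ∧ Grp cls inv jj T A l ∧
      (l.map fun N => 1 + N).prod *ᵥ Pi.single x₀ 1 = c • v := by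
  have he : VV cls A (cls x₀) (Pi.single x₀ 1 : R → ℂ) := VV_single hx₀
  by_cases hp : b (cls x₀) = cls x₀
  · by_cases h1 : sg inv jj v (Pi.single x₀ 1) = 0
    · -- choose `z`
      obtain ⟨z, hz, hze, hzv⟩ : ∃ z, VV cls A (cls x₀) z ∧
          sg inv jj z (Pi.single x₀ 1) ≠ 0 ∧ sg inv jj z v ≠ 0 := by
        by_cases h2 : v x₀ = 0
        · obtain ⟨y, hy⟩ : ∃ y, v y ≠ 0 := by
            by_contra hne
            push Not at hne
            exact hv0 (funext hne)
          have hyx : y ≠ x₀ := fun h => hy (h ▸ h2)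
          have hφ : VV cls A (cls x₀) (Pi.single x₀ 1 + Pi.single y 1 : R → ℂ) := by
            refine he.add ?_
            have h3 := hv y hy
            rw [← h3.1]
            exact VV_single h3.2
          obtain ⟨u, hu, hu2⟩ := exists_dual hF hb hA _ hφ
          refine ⟨u, hp ▸ hu, ?_, ?_⟩
          · rw [hu2]
            have h4 : ∑ i, (Pi.single x₀ 1 + Pi.single y 1 : R → ℂ) i *
                (Pi.single x₀ 1 : R → ℂ) i = 1 := by
              simp only [Pi.add_apply, add_mul, sum_add_distrib]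
              rw [sum_single, sum_single, Pi.single_eq_same, Pi.single_eq_of_ne hyx, add_zero]
            rw [h4]
            exact one_ne_zero
          · rw [hu2]
            have h4 : ∑ i, (Pi.single x₀ 1 + Pi.single y 1 : R → ℂ) i * v i = v y := by
              simp only [Pi.add_apply, add_mul, sum_add_distrib]
              rw [sum_single, sum_single, h2, zero_add]
            rw [h4]
            exact hy
        · obtain ⟨u, hu, hu2⟩ := exists_dual hF hb hA _ he
          refine ⟨u, hp ▸ hu, ?_, ?_⟩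
          · rw [hu2, sum_single, Pi.single_eq_same]
            exact one_ne_zero
          · rw [hu2, sum_single]
            exact h2
      obtain ⟨N1, hN1, hN1'⟩ := step_self hF hb T hA hp he hz hze (grp_nil T A)
      have hvz : sg inv jj v z ≠ 0 := by
        rw [sg_anti hF]
        exact neg_ne_zero.2 hzv
      obtain ⟨N2, hN2, hN2'⟩ := step_self hF hb T hA hp hz hv hvz hN1
      refine ⟨1, _, one_ne_zero, hN2, ?_⟩
      rw [List.map_cons, List.prod_cons, List.map_cons, List.prod_cons, List.map_nil, List.prod_nil,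
        mul_one, ← Matrix.mulVec_mulVec, hN1', hN2', one_smul]
    · obtain ⟨N, hN, hN'⟩ := step_self hF hb T hA hp he hv h1 (grp_nil T A)
      refine ⟨1, _, one_ne_zero, hN, ?_⟩
      rw [List.map_cons, List.prod_cons, List.map_nil, List.prod_nil, mul_one, hN', one_smul]
  · by_cases h1 : ∃ y, y ≠ x₀ ∧ v y ≠ 0
    · obtain ⟨y, hyx, hy⟩ := h1
      have h3 := hv y hy
      have hφ : VV cls A (cls x₀) (Pi.single x₀ 1 + ((1 - v x₀) / v y) • Pi.single y 1 : R → ℂ) := by
        refine he.add (VV.smul _ ?_)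
        rw [← h3.1]
        exact VV_single h3.2
      obtain ⟨u', hu', hu2⟩ := exists_dual hF hb hA _ hφ
      have h4 : sg inv jj u' (Pi.single x₀ 1) = 1 := by
        rw [hu2]
        simp only [Pi.add_apply, Pi.smul_apply, smul_eq_mul, add_mul, sum_add_distrib, mul_assoc,
          ← mul_sum]
        rw [sum_single, sum_single, Pi.single_eq_same, Pi.single_eq_of_ne hyx, mul_zero, add_zero]
      have h5 : sg inv jj u' v = 1 := by
        rw [hu2]
        simp only [Pi.add_apply, Pi.smul_apply, smul_eq_mul, add_mul, sum_add_distrib, mul_assoc,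
          ← mul_sum]
        rw [sum_single, sum_single]
        field_simp
        ring
      have h6 : sg inv jj (v - Pi.single x₀ 1) u' = 0 := by
        rw [sg_anti hF, sg_sub_right, h4, h5, sub_self, neg_zero]
      have h7 : sg inv jj (v - Pi.single x₀ 1) (Pi.single x₀ 1) = 0 := by
        by_contra h
        exact hp (sg_ne hF (hv.sub he) he h).symm
      refine ⟨1, [NN inv jj (v - Pi.single x₀ 1) u'], one_ne_zero,
        grp_cons hF hb T hA (hv.sub he) hu' h6 (grp_nil T A), ?_⟩
      rw [List.map_cons, List.prod_cons, List.map_nil, List.prod_nil, mul_one, mulVec_one_add,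
        NN_mulVec hF, h4, h7, one_smul, zero_smul, add_zero, one_smul]
      exact add_sub_cancel _ _
    · push Not at h1
      have h2 : v x₀ ≠ 0 := by
        intro h
        apply hv0
        funext y
        by_cases hy : y = x₀
        · rw [hy, h]; rfl
        · exact h1 y hy
      refine ⟨(v x₀)⁻¹, [], inv_ne_zero h2, grp_nil T A, ?_⟩
      rw [List.map_nil, List.prod_nil, Matrix.one_mulVec]
      funext y
      by_cases hy : y = x₀
      · rw [hy, Pi.single_eq_same, Pi.smul_apply, smul_eq_mul, inv_mul_cancel₀ h2]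
      · rw [Pi.single_eq_of_ne hy, Pi.smul_apply, h1 y hy, smul_zero]

theorem pair (hF : Fr cls b inv jj X) (hb : ∀ p, b (b p) = p) (T : Submodule ℂ (P → ℂ))
    (A : R → Prop) (hA : ∀ x, A x → A (inv x)) (x₀ : R) (hx₀ : ¬ A x₀) (v w : R → ℂ)
    (hv : ∀ x, v x ≠ 0 → cls x = cls x₀ ∧ ¬ A x) (hw : ∀ x, w x ≠ 0 → cls x = b (cls x₀) ∧ ¬ A x)
    (hvw : sg inv jj v w = jj x₀) :
    ∃ (c : ℂ) (l : List (Matrix R R ℂ)), c ≠ 0 ∧ (∀ N ∈ l, Ok cls inv jj T A N) ∧
    (l.map fun N => 1 + N).prod *ᵥ Pi.single x₀ 1 = c • v ∧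
    (l.map fun N => 1 + N).prod *ᵥ Pi.single (inv x₀) 1 = c⁻¹ • w := by
  have hv' : VV cls A (cls x₀) v := hv
  have hw' : VV cls A (b (cls x₀)) w := hw
  have ha : jj x₀ ≠ 0 := by
    rcases hF.j1 x₀ with h | h <;> rw [h] <;> norm_num
  have hv0 : v ≠ 0 := by
    intro h
    apply ha
    rw [← hvw, h, sg]
    exact sum_eq_zero fun x _ => by rw [Pi.zero_apply]; ring
  obtain ⟨c, l, hc, hl, hl'⟩ := step_one hF hb T hA hx₀ hv' hv0
  have hAi : ¬ A (inv x₀) := fun h => hx₀ (by rw [← hF.ii x₀]; exact hA _ h)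
  have he' : VV cls A (b (cls x₀)) (Pi.single (inv x₀) 1 : R → ℂ) := by
    rw [← hF.ci]
    exact VV_single hAi
  have hee : sg inv jj (Pi.single x₀ 1) (Pi.single (inv x₀) 1) = jj x₀ := by
    rw [sg, sum_eq_single x₀]
    · rw [Pi.single_eq_same, Pi.single_eq_same, mul_one, mul_one]
    · intro y _ hy
      rw [Pi.single_eq_of_ne hy, mul_zero, zero_mul]
    · intro h
      exact absurd (mem_univ _) h
  -- the vector `y = c g e'`
  obtain ⟨y, hy⟩ : ∃ y : R → ℂ, y = c • ((l.map fun N => 1 + N).prod *ᵥ Pi.single (inv x₀) 1) :=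
    ⟨_, rfl⟩
  have hyV : VV cls A (b (cls x₀)) y := by
    rw [hy]
    exact (hl.sup _ _ he').smul _
  have hvy : sg inv jj v y = jj x₀ := by
    rw [hy, sg_smul_right, ← sg_smul_left, ← hl', hl.form, hee]
  have h1 : sg inv jj v (w - y) = 0 := by rw [sg_sub_right, hvw, hvy, sub_self]
  have h2 : sg inv jj ((jj x₀)⁻¹ • v) (w - y) = 0 := by rw [sg_smul_left, h1, mul_zero]
  have h3 := grp_cons hF hb T hA (hv'.smul (jj x₀)⁻¹) (hw'.sub hyV) h2 hl
  obtain ⟨N, hN⟩ : ∃ N, N = NN inv jj ((jj x₀)⁻¹ • v) (w - y) := ⟨_, rfl⟩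
  rw [← hN] at h3
  have h4 : (1 + N) *ᵥ v = v := by
    rw [hN, mulVec_one_add, NN_mulVec hF, sg_anti hF (w - y) v, h1, sg_smul_left, sg_self hF]
    simp
  have h5 : (1 + N) *ᵥ y = w + ((jj x₀)⁻¹ * sg inv jj (w - y) y) • v := by
    rw [hN, mulVec_one_add, NN_mulVec hF, sg_smul_left, hvy, inv_mul_cancel₀ ha, one_smul, smul_smul,
      mul_comm (sg inv jj (w - y) y)]
    abel_nf
  by_cases hp : b (cls x₀) = cls x₀
  · -- correct
    obtain ⟨s, hs⟩ : ∃ s, s = (jj x₀)⁻¹ * sg inv jj (w - y) y := ⟨_, rfl⟩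
    rw [← hs] at h5
    have h6 : sg inv jj ((-s / (2 * jj x₀)) • v) v = 0 := by
      rw [sg_smul_left, sg_self hF, mul_zero]
    have h7 := grp_cons hF hb T hA (hv'.smul (-s / (2 * jj x₀))) (hp.symm ▸ hv') h6 h3
    refine ⟨c, _, hc, h7.ok, ?_, ?_⟩
    · rw [List.map_cons, List.prod_cons, List.map_cons, List.prod_cons, ← Matrix.mulVec_mulVec,
        ← Matrix.mulVec_mulVec, hl', Matrix.mulVec_smul, Matrix.mulVec_smul, h4, mulVec_one_add,
        NN_mulVec hF, h6, sg_self hF]
      simp
    · have h8 : (l.map fun N => 1 + N).prod *ᵥ Pi.single (inv x₀) 1 = c⁻¹ • y := by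
        rw [hy, smul_smul, inv_mul_cancel₀ hc, one_smul]
      rw [List.map_cons, List.prod_cons, List.map_cons, List.prod_cons, ← Matrix.mulVec_mulVec,
        ← Matrix.mulVec_mulVec, h8, Matrix.mulVec_smul, Matrix.mulVec_smul, h5]
      congr 1
      rw [mulVec_one_add, NN_mulVec hF, sg_smul_left, sg_add_right, sg_smul_right, sg_self hF, hvw,
        mul_zero, add_zero, smul_smul, add_assoc, ← add_smul, ← add_smul]
      have h9 : s + (jj x₀ * (-s / (2 * jj x₀)) + -s / (2 * jj x₀) * jj x₀) = 0 := by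
        field_simp
        ring
      rw [h9, zero_smul, add_zero]
  · have h6 : sg inv jj (w - y) y = 0 := by
      by_contra h
      have h7 := sg_ne hF (hw'.sub hyV) hyV h
      rw [hb] at h7
      exact hp h7
    rw [h6, mul_zero, zero_smul, add_zero] at h5
    refine ⟨c, _, hc, h3.ok, ?_, ?_⟩
    · rw [List.map_cons, List.prod_cons, ← Matrix.mulVec_mulVec, hl', Matrix.mulVec_smul, h4]
    · have h8 : (l.map fun N => 1 + N).prod *ᵥ Pi.single (inv x₀) 1 = c⁻¹ • y := by
        rw [hy, smul_smul, inv_mul_cancel₀ hc, one_smul]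
      rw [List.map_cons, List.prod_cons, ← Matrix.mulVec_mulVec, h8, Matrix.mulVec_smul, h5]

end

end

end Pool.Agent.N429.HX
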