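import Mathlib
import Pool.Agent.N178.HX.StmD
import Pool.Agent.N429.HX.PairCore

/-!
# Project GHC3, module PAIR
-/

namespace Pool.Agent.N429.HX

theorem t_PAIR : Pool.Agent.N178.HX.S_PAIR := by
  intro R P _ _ _ cls b inv jj X hF hb T A hA x₀ hx₀ v w hv hw hvw
  exact pair hF hb T A hA x₀ hx₀ v w hv hw hvw

end Pool.Agent.N429.HX
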